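import Pool.Agent.Helper74.UB.Goals1

/-!
# Properties of the next boundary dart (packet NXT for MP_cd9ac2_co)
-/

set_option autoImplicit false

namespace Pool.Agent.Helper79.UB

open Finset Equiv Helper28.VF Pool.Agent.Helper74.UB
open scoped Classical

section
variable {D V E F : Type} [Fintype D] [Fintype V] [Fintype E] [Fintype F] (M : PM D V E F)

theorem vt_pow (m : ℕ) (x : D) : M.vt ((M.σ ^ m) x) = M.vt x := by
  refine ((M.vt_iff _ _).2 ?_).symm
  exact ⟨(m : ℤ), by simp⟩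

theorem fc_al (x : D) : M.fc (M.α x) = M.fc (M.σ x) := by
  refine (M.fc_iff _ _).2 ?_
  exact ⟨1, by simp [M.α_inv]⟩

theorem nxt_ex (O : Finset V) (d : D) (hd : M.vt d ∉ O) :
    ∃ m : ℕ, 0 < m ∧ tg M ((M.σ ^ m) (M.α d)) ∉ O := by
  refine ⟨orderOf M.σ, orderOf_pos _, ?_⟩
  rw [pow_orderOf_eq_one]
  simpa [tg, M.α_inv] using hd

theorem nxt_spec (O : Finset V) (d : D) (hd : M.vt d ∉ O) :
    ∃ m : ℕ, 0 < m ∧ nxt M O d = (M.σ ^ m) (M.α d) ∧ tg M (nxt M O d) ∉ O ∧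
      ∀ j, 0 < j → j < m → tg M ((M.σ ^ j) (M.α d)) ∈ O := by
  have h := nxt_ex M O d hd
  have h1 : nxt M O d = (M.σ ^ (Nat.find h)) (M.α d) := by
    unfold nxt
    rw [dif_pos h]
  refine ⟨Nat.find h, (Nat.find_spec h).1, h1, ?_, ?_⟩
  · rw [h1]
    exact (Nat.find_spec h).2
  · intro j hj hj2
    by_contra h3
    exact Nat.find_min h hj2 ⟨hj, h3⟩

theorem vt_nxt (O : Finset V) (d : D) (hd : M.vt d ∉ O) :
    M.vt (nxt M O d) = tg M d ∧ tg M (nxt M O d) ∉ O := by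
  obtain ⟨m, _, h1, h2, _⟩ := nxt_spec M O d hd
  refine ⟨?_, h2⟩
  rw [h1, vt_pow]
  rfl

theorem nxt_mem (O : Finset V) (d : D) (hd : d ∈ bd M O) : nxt M O d ∈ bd M O := by
  have hd1 : Bd M O d := (Finset.mem_filter.1 hd).2
  obtain ⟨ht, hd2, hd3⟩ := hd1
  obtain ⟨hv, hg⟩ := vt_nxt M O d hd2
  obtain ⟨m, hm, h1, _, h3⟩ := nxt_spec M O d hd2
  refine Finset.mem_filter.2 ⟨Finset.mem_univ _, ?_, ?_, hg⟩
  · by_cases hm1 : m = 1
    · obtain ⟨e, he1, he2⟩ := ht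
      refine ⟨e, ?_, he2⟩
      rw [he1, h1, hm1, pow_one, ← fc_al, M.α_inv]
    · have hm2 : m = (m - 1) + 1 := by omega
      refine ⟨M.α ((M.σ ^ (m - 1)) (M.α d)), ?_, h3 (m - 1) (by omega) (by omega)⟩
      rw [fc_al, h1]
      congr 1
      conv_rhs => rw [hm2, pow_succ']
      rfl
  · rw [hv]
    exact hd3

theorem nxt_inj_aux (O : Finset V) (d e : D) (hd : M.vt d ∉ O)
    (m m' : ℕ) (hlt : m < m') (h : (M.σ ^ m) (M.α d) = (M.σ ^ m') (M.α e))
    (h3 : ∀ j, 0 < j → j < m' → tg M ((M.σ ^ j) (M.α e)) ∈ O) (hm : 0 < m) : False := by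
  have h4 : m' = m + (m' - m) := by omega
  rw [h4, pow_add] at h
  have h5 : M.α d = (M.σ ^ (m' - m)) (M.α e) := (M.σ ^ m).injective h
  have h6 := h3 (m' - m) (by omega) (by omega)
  rw [← h5] at h6
  unfold tg at h6
  rw [M.α_inv] at h6
  exact hd h6

theorem nxt_inj (O : Finset V) (d e : D) (hd : M.vt d ∉ O) (he : M.vt e ∉ O)
    (h : nxt M O d = nxt M O e) : d = e := by
  obtain ⟨m, hm, h1, _, h3⟩ := nxt_spec M O d hd
  obtain ⟨m', hm', h1', _, h3'⟩ := nxt_spec M O e he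
  rw [h1, h1'] at h
  rcases lt_trichotomy m m' with hlt | heq | hgt
  · exact (nxt_inj_aux M O d e hd m m' hlt h h3' hm).elim
  · subst heq
    have h5 : M.α d = M.α e := (M.σ ^ m).injective h
    exact M.α.injective h5
  · exact (nxt_inj_aux M O e d he m' m hgt h.symm h3 hm').elim

end

theorem nxt : StmtNxt := by
  intro D V E F _ _ _ _ M O
  refine ⟨fun d hd => vt_nxt M O d hd, fun d hd => nxt_mem M O d hd,
    fun d e hd he h => nxt_inj M O d e hd he h, ?_⟩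
  have himg : (bd M O).image (Pool.Agent.Helper74.UB.nxt M O) = bd M O := by
    refine Finset.eq_of_subset_of_card_le ?_ ?_
    · intro x hx
      obtain ⟨d, hd, rfl⟩ := Finset.mem_image.1 hx
      exact nxt_mem M O d hd
    · rw [Finset.card_image_of_injOn]
      intro d hd e he h
      have hd1 : Bd M O d := (Finset.mem_filter.1 (Finset.mem_coe.1 hd)).2
      have he1 : Bd M O e := (Finset.mem_filter.1 (Finset.mem_coe.1 he)).2
      exact nxt_inj M O d e hd1.2.1 he1.2.1 h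
  intro e he
  rw [← himg] at he
  obtain ⟨d, hd, h⟩ := Finset.mem_image.1 he
  exact ⟨d, hd, h⟩

end Pool.Agent.Helper79.UB
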